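import Pool.Agent.FTU.Stmts

set_option autoImplicit false

open MeasureTheory Complex ProbabilityTheory MvPolynomial

noncomputable section

namespace Pool.Agent.FTU.H30

open Pool.Agent.FTU
open Pool.Agent.Helper49_Pauli
open Pool.Agent.MBX
open Pool.Agent.Loc (γn PB)

lemma cont_pol {ι : Type} [Fintype ι] (S : Sys ι) (et : ℝ) (P : RR) (e : ι → ℝ) (x : X3) :
    Continuous (fun y : ι → ℝ => S.pol et P (fun i => y i + e i) x) := by
  unfold Sys.pol ev
  refine (MvPolynomial.continuous_eval P).comp (continuous_pi fun v => ?_)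
  cases v with
  | eta => exact continuous_const
  | z => exact continuous_const
  | zb => exact continuous_const
  | jet c p q r =>
    show Continuous fun y : ι → ℝ => ((S.jt et (fun i => y i + e i) (x 2) c p q r : ℝ) : ℂ)
    refine Complex.continuous_ofReal.comp ?_
    unfold Sys.jt
    fun_prop

lemma ja_nonneg (J : Fin 3 → ℕ → ℕ → ℕ → ℝ) (v : Var) : 0 ≤ ja J v := by
  cases v <;> simp [ja]

lemma polsq (h1 : PobStmt) (h2 : JmmStmt) (P : RR) : ∃ m n : ℕ, ∀ K : ℝ, ∃ C : ℝ, 0 ≤ C ∧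
    ∀ (ι : Type) [Fintype ι] (S : Sys ι) (ell et l cost : ℝ) (e : ι → ℝ), S.Good K ell → 0 < et →
    et ≤ 1 → S.Bg et l K cost n e → ∀ x : X3, |x 2| ≤ l →
    Integrable (fun y : ι → ℝ => ‖S.pol et P (fun i => y i + e i) x‖ ^ 2) (γn ι) ∧
    ∫ y : ι → ℝ, ‖S.pol et P (fun i => y i + e i) x‖ ^ 2 ∂(γn ι) ≤ C * (1 + ‖zt et x‖) ^ m := by
  obtain ⟨C0, m0, hC0, hb⟩ := h1 P
  obtain ⟨n, hn⟩ := h2 (2 * m0) P.vars
  refine ⟨2 * m0, n, fun K => ?_⟩
  obtain ⟨C1, hC1, hj⟩ := hn K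
  refine ⟨C0 ^ 2 * C1, mul_nonneg (sq_nonneg _) hC1, ?_⟩
  intro ι _ S ell et l cost e hG het het1 hBg x hx
  have hK : 0 ≤ K := le_trans (Finset.sum_nonneg fun i _ =>
    div_nonneg (sq_nonneg _) (hG.w0 i).le) hG.cw
  obtain ⟨hi, hle⟩ := hj ι S ell et l cost e hG hBg (x 2) hx (fun _ _ => 0) (fun _ => 0)
    (fun c => by simpa using hK) (fun c => by simpa using hK)
  simp only [mul_zero, Finset.sum_const_zero, add_zero, abs_zero] at hi hle
  have hbd : ∀ y : ι → ℝ, ‖S.pol et P (fun i => y i + e i) x‖ ^ 2 ≤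
      (C0 ^ 2 * (1 + ‖zt et x‖) ^ (2 * m0)) *
        (1 + ∑ v ∈ P.vars, ja (S.jt et (fun i => y i + e i) (x 2)) v) ^ (2 * m0) := by
    intro y
    have := hb et (S.jt et (fun i => y i + e i) (x 2)) (zt et x) het.le het1
    calc ‖S.pol et P (fun i => y i + e i) x‖ ^ 2 ≤ (C0 * (1 + ‖zt et x‖) ^ m0 *
        (1 + ∑ v ∈ P.vars, ja (S.jt et (fun i => y i + e i) (x 2)) v) ^ m0) ^ 2 :=
          pow_le_pow_left₀ (norm_nonneg _) this 2
      _ = _ := by rw [pow_mul', pow_mul']; ring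
  have hi' := hi.const_mul (C0 ^ 2 * (1 + ‖zt et x‖) ^ (2 * m0))
  have hint : Integrable (fun y : ι → ℝ => ‖S.pol et P (fun i => y i + e i) x‖ ^ 2) (γn ι) := by
    refine hi'.mono' ((cont_pol S et P e x).norm.pow 2).aestronglyMeasurable
      (Filter.Eventually.of_forall fun y => ?_)
    rw [Real.norm_of_nonneg (sq_nonneg _)]
    exact hbd y
  refine ⟨hint, ?_⟩
  calc ∫ y : ι → ℝ, ‖S.pol et P (fun i => y i + e i) x‖ ^ 2 ∂(γn ι) ≤
      ∫ y : ι → ℝ, (C0 ^ 2 * (1 + ‖zt et x‖) ^ (2 * m0)) *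
        (1 + ∑ v ∈ P.vars, ja (S.jt et (fun i => y i + e i) (x 2)) v) ^ (2 * m0) ∂(γn ι) :=
        integral_mono hint hi' hbd
    _ = (C0 ^ 2 * (1 + ‖zt et x‖) ^ (2 * m0)) * ∫ y : ι → ℝ,
        (1 + ∑ v ∈ P.vars, ja (S.jt et (fun i => y i + e i) (x 2)) v) ^ (2 * m0) ∂(γn ι) :=
        integral_const_mul _ _
    _ ≤ (C0 ^ 2 * (1 + ‖zt et x‖) ^ (2 * m0)) * C1 :=
        mul_le_mul_of_nonneg_left hle (by positivity)
    _ = _ := by ring

lemma bg_mono {ι : Type} [Fintype ι] (S : Sys ι) (et l K cost : ℝ) (n n' : ℕ) (e : ι → ℝ)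
    (h : n' ≤ n) (hB : S.Bg et l K cost n e) : S.Bg et l K cost n' e :=
  ⟨hB.1, fun c p q r hp z hz => hB.2 c p q r (hp.trans h) z hz⟩

lemma nsq_tri {ι : Type} [Fintype ι] (S : Sys ι) (et : ℝ) (eps u f : RR) (ch : X3 → ℝ) (y : ι → ℝ)
    (x : X3) : nsq (S.tri et eps u f ch y x) =
      (ch x * gs et x) ^ 2 * (‖S.pol et u y x‖ ^ 2 + ‖S.pol et f y x‖ ^ 2) := by
  have hn : ‖cexp (-(I * (S.Th et eps y (x 2) : ℂ))) * ((ch x * gs et x : ℝ) : ℂ)‖ ^ 2 =
      (ch x * gs et x) ^ 2 := by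
    rw [norm_mul, Complex.norm_exp, Complex.norm_real]
    have : (-(I * (S.Th et eps y (x 2) : ℂ))).re = 0 := by simp
    rw [this, Real.exp_zero, one_mul, Real.norm_eq_abs, sq_abs]
  unfold nsq Sys.tri
  rw [Fin.sum_univ_two]
  simp only [Pi.smul_apply, Matrix.cons_val_zero, Matrix.cons_val_one, smul_eq_mul]
  have h2 : ∀ a : ℂ, ‖cexp (-(I * (S.Th et eps y (x 2) : ℂ))) * ((ch x * gs et x : ℝ) : ℂ) * a‖ ^ 2 =
      (ch x * gs et x) ^ 2 * ‖a‖ ^ 2 := by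
    intro a
    rw [norm_mul, mul_pow, hn]
  rw [h2, h2, mul_add]

theorem exn (h1 : PobStmt) (h2 : JmmStmt) : ExnStmt := by
  intro bp CB hbp eps u f h hf
  obtain ⟨mu', nu, hu⟩ := polsq h1 h2 u
  obtain ⟨mf, nf, hff⟩ := polsq h1 h2 f
  obtain ⟨mh, nh, hh⟩ := polsq h1 h2 h
  refine ⟨mh, nu + nf + nh, fun K => ?_⟩
  obtain ⟨Cu, hCu, hu⟩ := hu K
  obtain ⟨Cf, hCf, hff⟩ := hff K
  obtain ⟨Ch, hCh, hh⟩ := hh K
  refine ⟨Ch, hCh, ?_⟩
  intro ι _ _ S ell et l cost e hG het het1 hl hBg x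
  have hl0 : 0 < l := by linarith
  by_cases hx : ∀ j, |x j| ≤ l
  · have hc : cube l x = 1 := by simp [cube, hx]
    obtain ⟨iu, -⟩ := hu ι S ell et l cost e hG het het1
      (bg_mono S et l K cost _ _ e (by omega) hBg) x (hx 2)
    obtain ⟨if', -⟩ := hff ι S ell et l cost e hG het het1
      (bg_mono S et l K cost _ _ e (by omega) hBg) x (hx 2)
    obtain ⟨ih, eh⟩ := hh ι S ell et l cost e hG het het1
      (bg_mono S et l K cost _ _ e (by omega) hBg) x (hx 2)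
    have : IsProbabilityMeasure (γn ι) := by
      unfold γn
      infer_instance
    set s : ℝ := sc bp l x with hs
    have hs0 : 0 ≤ s := hbp.nonneg _
    have hs1 : s ≤ 1 := hbp.le_one _
    set g : ℝ := gs et x with hg
    have hg0 : 0 ≤ g := Real.exp_nonneg _
    have hpf : ∀ y : ι → ℝ, S.pol et f y x = 1 + (et : ℂ) * S.pol et h y x := by
      intro y
      rw [hf]
      simp [Sys.pol, ev, xe, pt]
    have hlow : ∀ y : ι → ℝ, (s * g) ^ 2 * (1 / 2 - et ^ 2 * ‖S.pol et h (fun i => y i + e i) x‖ ^ 2) ≤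
        nsq (S.tri et eps u f (sc bp l) (fun i => y i + e i) x) := by
      intro y
      rw [nsq_tri]
      refine mul_le_mul_of_nonneg_left ?_ (sq_nonneg _)
      rw [hpf]
      set a : ℂ := (et : ℂ) * S.pol et h (fun i => y i + e i) x with ha
      have hna : ‖a‖ ^ 2 = et ^ 2 * ‖S.pol et h (fun i => y i + e i) x‖ ^ 2 := by
        rw [ha, norm_mul, Complex.norm_real, Real.norm_eq_abs, mul_pow, sq_abs]
      rw [← hna]
      have h3 : (1 : ℝ) ≤ ‖1 + a‖ + ‖a‖ := by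
        calc (1 : ℝ) = ‖(1 + a) - a‖ := by simp
          _ ≤ ‖1 + a‖ + ‖a‖ := norm_sub_le _ _
      nlinarith [sq_nonneg (‖1 + a‖ - ‖a‖), norm_nonneg (1 + a), norm_nonneg a,
        sq_nonneg ‖S.pol et u (fun i => y i + e i) x‖]
    have hI1 : Integrable (fun y : ι → ℝ => (s * g) ^ 2 *
        (1 / 2 - et ^ 2 * ‖S.pol et h (fun i => y i + e i) x‖ ^ 2)) (γn ι) :=
      ((integrable_const _).sub (ih.const_mul _)).const_mul _
    have hI2 : Integrable (fun y : ι → ℝ =>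
        nsq (S.tri et eps u f (sc bp l) (fun i => y i + e i) x)) (γn ι) := by
      simp only [nsq_tri]
      exact (iu.add if').const_mul _
    have hm := integral_mono hI1 hI2 hlow
    have hv : ∫ y : ι → ℝ, (s * g) ^ 2 *
        (1 / 2 - et ^ 2 * ‖S.pol et h (fun i => y i + e i) x‖ ^ 2) ∂(γn ι) =
        (s * g) ^ 2 * (1 / 2 - et ^ 2 * ∫ y : ι → ℝ, ‖S.pol et h (fun i => y i + e i) x‖ ^ 2 ∂(γn ι)) := by
      rw [integral_const_mul, integral_sub (integrable_const _) (ih.const_mul _),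
        integral_const_mul]
      simp
    rw [hv] at hm
    refine le_trans ?_ hm
    rw [hc]
    set E := ∫ y : ι → ℝ, ‖S.pol et h (fun i => y i + e i) x‖ ^ 2 ∂(γn ι) with hE
    have hE0 : 0 ≤ E := integral_nonneg fun y => sq_nonneg _
    have h4 : (s * g) ^ 2 * (et ^ 2 * E) ≤ Ch * et ^ 2 * (1 * (1 + ‖zt et x‖) ^ mh * g ^ 2) := by
      have h5 : s ^ 2 ≤ 1 := by nlinarith
      calc (s * g) ^ 2 * (et ^ 2 * E) = s ^ 2 * (g ^ 2 * et ^ 2 * E) := by ring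
        _ ≤ 1 * (g ^ 2 * et ^ 2 * E) := mul_le_mul_of_nonneg_right h5 (by positivity)
        _ = g ^ 2 * et ^ 2 * E := one_mul _
        _ ≤ g ^ 2 * et ^ 2 * (Ch * (1 + ‖zt et x‖) ^ mh) :=
          mul_le_mul_of_nonneg_left eh (by positivity)
        _ = _ := by ring
    nlinarith [h4]
  · have hc : cube l x = 0 := by simp [cube, hx]
    have hs : sc bp l x = 0 := by
      simp only [not_forall, not_le] at hx
      obtain ⟨j, hj⟩ := hx
      refine hbp.zero _ ⟨j, ?_⟩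
      simp only [Pi.smul_apply, smul_eq_mul, abs_mul, abs_inv, abs_of_pos hl0]
      rw [← div_eq_inv_mul, le_div_iff₀ hl0]
      linarith
    rw [hc, hs]
    simp only [nsq_tri, hs]
    simp

end Pool.Agent.FTU.H30

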