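import Pool.Agent.FTU.Stmts

set_option autoImplicit false

open MeasureTheory Complex ProbabilityTheory MvPolynomial Set

noncomputable section

namespace Pool.Agent.FTU.H30F

open Pool.Agent.FTU
open Pool.Agent.Helper49_Pauli
open Pool.Agent.MBX
open Pool.Agent.Loc (γn PB)

/-- the value of the polynomial at the shifted configuration -/
def va {ι : Type} [Fintype ι] (S : Sys ι) (et : ℝ) (P : RR) (e : ι → ℝ) (ze : ℂ) (y : ι → ℝ) (s : ℝ) : ℂ :=
  ev et (S.jt et (fun i => y i + e i) s) ze P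

lemma cont_va {ι : Type} [Fintype ι] (S : Sys ι) (et : ℝ) (P : RR) (e : ι → ℝ) (ze : ℂ) :
    Continuous (fun q : (ι → ℝ) × ℝ => va S et P e ze q.1 q.2) := by
  unfold va ev
  refine (MvPolynomial.continuous_eval P).comp (continuous_pi fun v => ?_)
  cases v with
  | eta => exact continuous_const
  | z => exact continuous_const
  | zb => exact continuous_const
  | jet c p q r =>
    show Continuous fun y : (ι → ℝ) × ℝ => ((S.jt et (fun i => y.1 i + e i) y.2 c p q r : ℝ) : ℂ)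
    refine Complex.continuous_ofReal.comp ?_
    unfold Sys.jt Sys.jm
    fun_prop

lemma cont_vy {ι : Type} [Fintype ι] (S : Sys ι) (et : ℝ) (P : RR) (e : ι → ℝ) (ze : ℂ) (s : ℝ) :
    Continuous (fun y : ι → ℝ => va S et P e ze y s) := by
  unfold va ev
  refine (MvPolynomial.continuous_eval P).comp (continuous_pi fun v => ?_)
  cases v with
  | eta => exact continuous_const
  | z => exact continuous_const
  | zb => exact continuous_const
  | jet c p q r =>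
    show Continuous fun y : ι → ℝ => ((S.jt et (fun i => y i + e i) s c p q r : ℝ) : ℂ)
    refine Complex.continuous_ofReal.comp ?_
    unfold Sys.jt Sys.jm
    fun_prop

lemma cont_vs {ι : Type} [Fintype ι] (S : Sys ι) (et : ℝ) (P : RR) (e : ι → ℝ) (ze : ℂ)
    (y : ι → ℝ) : Continuous (fun s : ℝ => va S et P e ze y s) := by
  unfold va ev
  refine (MvPolynomial.continuous_eval P).comp (continuous_pi fun v => ?_)
  cases v with
  | eta => exact continuous_const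
  | z => exact continuous_const
  | zb => exact continuous_const
  | jet c p q r =>
    show Continuous fun s : ℝ => ((S.jt et (fun i => y i + e i) s c p q r : ℝ) : ℂ)
    refine Complex.continuous_ofReal.comp ?_
    unfold Sys.jt Sys.jm
    fun_prop

/-- the bound for moments of order `4` -/
def MB (K C : ℝ) (m n : ℕ) (P : RR) : Prop :=
  ∀ (ι : Type) [Fintype ι] (S : Sys ι) (ell et l cost : ℝ) (e : ι → ℝ), S.Good K ell → 0 < et →
    et ≤ 1 → S.Bg et l K cost n e → ∀ (ze : ℂ) (s : ℝ), |s| ≤ l →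
    Integrable (fun y : ι → ℝ => ‖va S et P e ze y s‖ ^ 4) (γn ι) ∧
    ∫ y : ι → ℝ, ‖va S et P e ze y s‖ ^ 4 ∂(γn ι) ≤ C * (1 + ‖ze‖) ^ m

lemma K_nonneg {ι : Type} [Fintype ι] (S : Sys ι) (K ell : ℝ) (hG : S.Good K ell) : 0 ≤ K :=
  le_trans (Finset.sum_nonneg fun i _ => div_nonneg (sq_nonneg _) (hG.w0 i).le) hG.cw

lemma pw4 (a C0 z Y : ℝ) (m0 : ℕ) (ha : 0 ≤ a) (h : a ≤ C0 * z ^ m0 * Y ^ m0) :
    a ^ 4 ≤ (C0 ^ 4 * z ^ (m0 * 4)) * Y ^ (m0 * 4) := by
  calc a ^ 4 ≤ (C0 * z ^ m0 * Y ^ m0) ^ 4 := pow_le_pow_left₀ ha h 4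
    _ = _ := by rw [pow_mul, pow_mul, mul_pow, mul_pow]

lemma polk (h1 : PobStmt) (h2 : JmmStmt) (P : RR) : ∃ m n : ℕ, ∀ K : ℝ, ∃ C : ℝ, 0 ≤ C ∧
    MB K C m n P := by
  obtain ⟨C0, m0, hC0, hb⟩ := h1 P
  obtain ⟨n, hn⟩ := h2 (m0 * 4) P.vars
  refine ⟨m0 * 4, n, fun K => ?_⟩
  obtain ⟨C1, hC1, hj⟩ := hn K
  refine ⟨C0 ^ 4 * C1, mul_nonneg (by positivity) hC1, ?_⟩
  unfold MB
  intro ι _ S ell et l cost e hG het het1 hBg ze s hs
  have hK : 0 ≤ K := K_nonneg S K ell hG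
  obtain ⟨hi, hle⟩ := hj ι S ell et l cost e hG hBg s hs (fun _ _ => 0) (fun _ => 0)
    (fun c => by simpa using hK) (fun c => by simpa using hK)
  simp only [mul_zero, Finset.sum_const_zero, add_zero, abs_zero] at hi hle
  have hbd : ∀ y : ι → ℝ, ‖va S et P e ze y s‖ ^ 4 ≤
      (C0 ^ 4 * (1 + ‖ze‖) ^ (m0 * 4)) *
        (1 + ∑ v ∈ P.vars, ja (S.jt et (fun i => y i + e i) s) v) ^ (m0 * 4) := by
    intro y
    have := hb et (S.jt et (fun i => y i + e i) s) ze het.le het1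
    exact pw4 _ _ _ _ m0 (norm_nonneg _) this
  have hi' := hi.const_mul (C0 ^ 4 * (1 + ‖ze‖) ^ (m0 * 4))
  have hcy : Continuous (fun y : ι → ℝ => va S et P e ze y s) := cont_vy S et P e ze s
  have hint : Integrable (fun y : ι → ℝ => ‖va S et P e ze y s‖ ^ 4) (γn ι) := by
    refine hi'.mono' (hcy.norm.pow 4).aestronglyMeasurable
      (Filter.Eventually.of_forall fun y => ?_)
    rw [Real.norm_of_nonneg (by positivity)]
    exact hbd y
  refine ⟨hint, ?_⟩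
  calc ∫ y : ι → ℝ, ‖va S et P e ze y s‖ ^ 4 ∂(γn ι) ≤
      ∫ y : ι → ℝ, (C0 ^ 4 * (1 + ‖ze‖) ^ (m0 * 4)) *
        (1 + ∑ v ∈ P.vars, ja (S.jt et (fun i => y i + e i) s) v) ^ (m0 * 4) ∂(γn ι) :=
        integral_mono hint hi' hbd
    _ = (C0 ^ 4 * (1 + ‖ze‖) ^ (m0 * 4)) * ∫ y : ι → ℝ,
        (1 + ∑ v ∈ P.vars, ja (S.jt et (fun i => y i + e i) s) v) ^ (m0 * 4) ∂(γn ι) :=
        integral_const_mul _ _
    _ ≤ (C0 ^ 4 * (1 + ‖ze‖) ^ (m0 * 4)) * C1 :=
        mul_le_mul_of_nonneg_left hle (by positivity)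
    _ = _ := by ring

lemma bg_mono {ι : Type} [Fintype ι] (S : Sys ι) (et l K cost : ℝ) (n n' : ℕ) (e : ι → ℝ)
    (h : n' ≤ n) (hB : S.Bg et l K cost n e) : S.Bg et l K cost n' e :=
  ⟨hB.1, fun c p q r hp z hz => hB.2 c p q r (hp.trans h) z hz⟩

lemma MB_mono (K C C' : ℝ) (m m' n n' : ℕ) (P : RR) (hC : 0 ≤ C) (hCC : C ≤ C') (hm : m ≤ m')
    (hn : n ≤ n') (h : MB K C m n P) : MB K C' m' n' P := by
  intro ι _ S ell et l cost e hG het het1 hBg ze s hs
  obtain ⟨a, b⟩ := h ι S ell et l cost e hG het het1 (bg_mono S et l K cost _ _ e hn hBg) ze s hs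
  refine ⟨a, b.trans ?_⟩
  have h1 : (1 : ℝ) ≤ 1 + ‖ze‖ := by linarith [norm_nonneg ze]
  have h2 : (1 + ‖ze‖) ^ m ≤ (1 + ‖ze‖) ^ m' := pow_le_pow_right₀ h1 hm
  have h3 : 0 ≤ (1 + ‖ze‖) ^ m := by positivity
  nlinarith

lemma polF (h1 : PobStmt) (h2 : JmmStmt) (Q : Finset RR) : ∃ m n : ℕ, ∀ K : ℝ, ∃ C : ℝ, 0 ≤ C ∧
    ∀ P ∈ Q, MB K C m n P := by
  classical
  induction Q using Finset.induction_on with
  | empty => exact ⟨0, 0, fun K => ⟨0, le_refl _, by simp⟩⟩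
  | insert a Q _ ih =>
    obtain ⟨m, n, h⟩ := ih
    obtain ⟨m', n', h'⟩ := polk h1 h2 a
    refine ⟨m + m', n + n', fun K => ?_⟩
    obtain ⟨C, hC, hQ⟩ := h K
    obtain ⟨C', hC', ha⟩ := h' K
    refine ⟨C + C', by positivity, fun P hP => ?_⟩
    rw [Finset.mem_insert] at hP
    rcases hP with rfl | hP
    · exact MB_mono K C' _ m' _ n' _ _ hC' (by linarith) (by omega) (by omega) ha
    · exact MB_mono K C _ m _ n _ _ hC (by linarith) (by omega) (by omega) (hQ P hP)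

/-- Fubini for the fourth power -/
lemma fub {ι : Type} [Fintype ι] (S : Sys ι) (et : ℝ) (P : RR) (e : ι → ℝ) (z l C : ℝ)
    (hz : |z| ≤ l) (hC : 0 ≤ C)
    (h : ∀ s, |s| ≤ l → Integrable (fun y : ι → ℝ => ‖va S et P e 0 y s‖ ^ 4) (γn ι) ∧
      ∫ y : ι → ℝ, ‖va S et P e 0 y s‖ ^ 4 ∂(γn ι) ≤ C) :
    Integrable (fun y : ι → ℝ => ∫ s in uIoc 0 z, ‖va S et P e 0 y s‖ ^ 4) (γn ι) ∧
    ∫ y : ι → ℝ, (∫ s in uIoc 0 z, ‖va S et P e 0 y s‖ ^ 4) ∂(γn ι) ≤ l * C := by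
  have hprob : IsProbabilityMeasure (γn ι) := by
    unfold γn
    infer_instance
  have hs : ∀ s ∈ uIoc 0 z, |s| ≤ l := by
    intro s hs
    refine le_trans ?_ hz
    rcases le_total 0 z with h0 | h0
    · rw [uIoc_of_le h0] at hs
      rw [abs_of_nonneg h0, abs_of_pos hs.1]; exact hs.2
    · rw [uIoc_of_ge h0] at hs
      rw [abs_of_nonpos h0, abs_of_nonpos hs.2]; linarith [hs.1]
  have hfin : IsFiniteMeasure (volume.restrict (uIoc (0 : ℝ) z)) := by
    refine ⟨?_⟩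
    rw [Measure.restrict_apply_univ, Real.volume_uIoc]
    exact ENNReal.ofReal_lt_top
  have hcont : Continuous (fun q : (ι → ℝ) × ℝ => ‖va S et P e 0 q.1 q.2‖ ^ 4) :=
    (cont_va S et P e 0).norm.pow 4
  have hmeas : AEStronglyMeasurable (fun q : (ι → ℝ) × ℝ => ‖va S et P e 0 q.1 q.2‖ ^ 4)
      ((γn ι).prod (volume.restrict (uIoc (0 : ℝ) z))) := hcont.aestronglyMeasurable
  have hint : Integrable (fun q : (ι → ℝ) × ℝ => ‖va S et P e 0 q.1 q.2‖ ^ 4)
      ((γn ι).prod (volume.restrict (uIoc (0 : ℝ) z))) := by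
    rw [integrable_prod_iff' hmeas]
    refine ⟨?_, ?_⟩
    · rw [ae_restrict_iff' measurableSet_uIoc]
      exact Filter.Eventually.of_forall fun s hs' => (h s (hs s hs')).1
    · refine Integrable.mono' (integrable_const C)
        (hmeas.norm.prod_swap.integral_prod_right') ?_
      rw [ae_restrict_iff' measurableSet_uIoc]
      refine Filter.Eventually.of_forall fun s hs' => ?_
      rw [Real.norm_of_nonneg (integral_nonneg fun y => norm_nonneg _)]
      have := (h s (hs s hs')).2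
      simpa using this
  refine ⟨hint.integral_prod_left, ?_⟩
  have hsw := integral_integral_swap (f := fun (y : ι → ℝ) (s : ℝ) => ‖va S et P e 0 y s‖ ^ 4) hint
  rw [hsw]
  calc ∫ s in uIoc 0 z, (∫ y : ι → ℝ, ‖va S et P e 0 y s‖ ^ 4 ∂(γn ι)) ≤
      ∫ s in uIoc 0 z, C := by
        refine setIntegral_mono_on hint.integral_prod_right (integrable_const C)
          measurableSet_uIoc ?_
        exact fun s hs' => (h s (hs s hs')).2
    _ = |z| * C := by
        rw [setIntegral_const, smul_eq_mul, measureReal_def, Real.volume_uIoc, sub_zero,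
          ENNReal.toReal_ofReal (abs_nonneg _)]
    _ ≤ l * C := mul_le_mul_of_nonneg_right hz hC

/-- the phase term, pointwise -/
lemma phs {ι : Type} [Fintype ι] (S : Sys ι) (et : ℝ) (P : RR) (e : ι → ℝ) (z q : ℝ) (y : ι → ℝ)
    (hq : 0 ≤ q) :
    |∫ s in (0 : ℝ)..z, (va S et P e 0 y s).re ^ 2| * q ≤
      (∫ s in uIoc 0 z, ‖va S et P e 0 y s‖ ^ 4) / 2 + |z| * q ^ 2 / 2 := by
  have hcs : Continuous (fun s : ℝ => va S et P e 0 y s) := cont_vs S et P e 0 y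
  have hI : ∀ g : ℝ → ℝ, Continuous g → IntegrableOn g (uIoc 0 z) := by
    intro g hg
    exact (hg.intervalIntegrable 0 z).def'
  have h0 : |∫ s in (0 : ℝ)..z, (va S et P e 0 y s).re ^ 2| =
      ∫ s in uIoc 0 z, (va S et P e 0 y s).re ^ 2 := by
    have := intervalIntegral.norm_intervalIntegral_eq (fun s => (va S et P e 0 y s).re ^ 2) 0 z volume
    rw [Real.norm_eq_abs, Real.norm_of_nonneg (integral_nonneg fun s => sq_nonneg _)] at this
    exact this
  rw [h0, ← integral_mul_const]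
  have h1 : ∫ s in uIoc 0 z, (va S et P e 0 y s).re ^ 2 * q ≤
      ∫ s in uIoc 0 z, (‖va S et P e 0 y s‖ ^ 4 / 2 + q ^ 2 / 2) := by
    refine setIntegral_mono_on ?_ ?_ measurableSet_uIoc ?_
    · exact hI _ (((Complex.continuous_re.comp hcs).pow 2).mul continuous_const)
    · exact hI _ (((hcs.norm.pow 4).div_const 2).add continuous_const)
    · intro s _
      have h2 : (va S et P e 0 y s).re ^ 2 ≤ ‖va S et P e 0 y s‖ ^ 2 := by
        rw [← sq_abs]
        exact pow_le_pow_left₀ (abs_nonneg _) (Complex.abs_re_le_norm _) 2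
      have h3 : (va S et P e 0 y s).re ^ 2 * q ≤ ‖va S et P e 0 y s‖ ^ 2 * q :=
        mul_le_mul_of_nonneg_right h2 hq
      nlinarith [sq_nonneg (‖va S et P e 0 y s‖ ^ 2 - q)]
  refine h1.trans (le_of_eq ?_)
  have hi1 : IntegrableOn (fun s : ℝ => ‖va S et P e 0 y s‖ ^ 4 / 2) (uIoc 0 z) :=
    hI _ ((hcs.norm.pow 4).div_const 2)
  have hi2 : IntegrableOn (fun _ : ℝ => q ^ 2 / 2) (uIoc 0 z) := hI _ continuous_const
  rw [integral_add hi1 hi2, integral_div, setIntegral_const, smul_eq_mul, measureReal_def, Real.volume_uIoc, sub_zero,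
    ENNReal.toReal_ofReal (abs_nonneg _)]
  ring

lemma dY2_shift {ι : Type} [Fintype ι] [DecidableEq ι] (psi : (ι → ℝ) → X3 → S2) (e : ι → ℝ)
    (i : ι) (y : ι → ℝ) (x : X3) :
    dY2 i (fun y => psi fun i => y i + e i) y x = dY2 i psi (fun i => y i + e i) x := by
  funext s
  unfold dY2 dY
  have h : (fun t : ℝ => psi (fun j => Function.update y i t j + e j) x s) =
      fun t : ℝ => (fun t' : ℝ => psi (Function.update (fun j => y j + e j) i t') x s) (t + e i) := by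
    funext t
    show psi _ x s = psi _ x s
    have h2 : (fun j => Function.update y i t j + e j) =
        Function.update (fun j => y j + e j) i (t + e i) := by
      funext j
      by_cases hj : j = i
      · subst hj; simp
      · simp [Function.update_of_ne hj]
    rw [h2]
  show deriv (fun t : ℝ => psi (fun j => Function.update y i t j + e j) x s) (y i) =
    deriv (fun t' : ℝ => psi (Function.update (fun j => y j + e j) i t') x s) (y i + e i)
  rw [h]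
  exact deriv_comp_add_const (fun t' : ℝ => psi (Function.update (fun j => y j + e j) i t') x s)
    (e i) (y i)

theorem flx (h1 : PobStmt) (h2 : JmmStmt) (h3 : FlpStmt) : FlxStmt := by
  classical
  intro bp CB hbp eps u f
  set Q : Finset RR := {u, f} ∪ eps.vars.image (fun v => MvPolynomial.pderiv v eps) ∪
    u.vars.image (fun v => MvPolynomial.pderiv v u) ∪
    f.vars.image (fun v => MvPolynomial.pderiv v f) with hQ
  have hQu : u ∈ Q := by simp [hQ]
  have hQf : f ∈ Q := by simp [hQ]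
  have hQe : ∀ v ∈ eps.vars, MvPolynomial.pderiv v eps ∈ Q := by
    intro v hv
    simp only [hQ, Finset.mem_union, Finset.mem_image]
    exact Or.inl (Or.inl (Or.inr ⟨v, hv, rfl⟩))
  have hQdu : ∀ v ∈ u.vars, MvPolynomial.pderiv v u ∈ Q := by
    intro v hv
    simp only [hQ, Finset.mem_union, Finset.mem_image]
    exact Or.inl (Or.inr ⟨v, hv, rfl⟩)
  have hQdf : ∀ v ∈ f.vars, MvPolynomial.pderiv v f ∈ Q := by
    intro v hv
    simp only [hQ, Finset.mem_union, Finset.mem_image]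
    exact Or.inr ⟨v, hv, rfl⟩
  obtain ⟨m, n, hmn⟩ := polF h1 h2 Q
  refine ⟨m, n, fun K => ?_⟩
  obtain ⟨C, hC, hM⟩ := hmn K
  set ce : ℝ := (eps.vars.card : ℝ) with hce
  set cu : ℝ := (u.vars.card : ℝ) with hcu
  set cf : ℝ := (f.vars.card : ℝ) with hcf
  have hce0 : 0 ≤ ce := Nat.cast_nonneg _
  have hcu0 : 0 ≤ cu := Nat.cast_nonneg _
  have hcf0 : 0 ≤ cf := Nat.cast_nonneg _
  refine ⟨2 * |K| * (ce ^ 2 * (5 / 2 * C) + (cu ^ 2 + cf ^ 2) * (1 + C)), by positivity, ?_⟩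
  intro ι _ _ S ell et l cost e hG het het1 hl hlell hBg x
  have hK : 0 ≤ K := K_nonneg S K ell hG
  have hprob : IsProbabilityMeasure (γn ι) := by
    unfold γn
    infer_instance
  have hl0 : 0 < l := by linarith
  rw [abs_of_nonneg hK]
  have hflp : ∀ y : ι → ℝ, ∑ i, S.w i * nsq (dY2 i (fun y => S.tri et eps u f (sc bp l)
      fun i => y i + e i) y x) ≤ 2 * (cube l x * gs et x ^ 2) * K *
      (ce * (∑ v ∈ eps.vars,
          |∫ s in (0 : ℝ)..(x 2), (va S et (MvPolynomial.pderiv v eps) e 0 y s).re ^ 2|) *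
          (‖va S et u e (zt et x) y (x 2)‖ ^ 2 + ‖va S et f e (zt et x) y (x 2)‖ ^ 2) +
        cu * ∑ v ∈ u.vars, ‖va S et (MvPolynomial.pderiv v u) e (zt et x) y (x 2)‖ ^ 2 +
        cf * ∑ v ∈ f.vars, ‖va S et (MvPolynomial.pderiv v f) e (zt et x) y (x 2)‖ ^ 2) := by
    intro y
    have := h3 bp CB hbp eps u f ι S K ell et l (fun i => y i + e i) x hG het hl hlell
    simp only [dY2_shift (S.tri et eps u f (sc bp l)) e]
    exact this
  have hnn : ∀ y : ι → ℝ, 0 ≤ ∑ i, S.w i * nsq (dY2 i (fun y => S.tri et eps u f (sc bp l)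
      fun i => y i + e i) y x) := by
    intro y
    refine Finset.sum_nonneg fun i _ => mul_nonneg (hG.w0 i).le ?_
    exact Finset.sum_nonneg fun s _ => sq_nonneg _
  by_cases hx : ∀ j, |x j| ≤ l
  swap
  · have hc : cube l x = 0 := by simp [cube, hx]
    have h0 : ∀ y : ι → ℝ, ∑ i, S.w i * nsq (dY2 i (fun y => S.tri et eps u f (sc bp l)
        fun i => y i + e i) y x) = 0 := by
      intro y
      have := hflp y
      rw [hc] at this
      simp only [zero_mul, mul_zero] at this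
      exact le_antisymm this (hnn y)
    simp only [h0, hc]
    simp
  have hc : cube l x = 1 := by simp [cube, hx]
  set ze : ℂ := zt et x with hze
  set g2 : ℝ := gs et x ^ 2 with hg2
  have hg20 : 0 ≤ g2 := sq_nonneg _
  set B : ℝ := (1 + ‖ze‖) ^ m with hB
  have hB1 : 1 ≤ B := one_le_pow₀ (by linarith [norm_nonneg ze])
  have hmom : ∀ P ∈ Q, Integrable (fun y : ι → ℝ => ‖va S et P e ze y (x 2)‖ ^ 4) (γn ι) ∧
      ∫ y : ι → ℝ, ‖va S et P e ze y (x 2)‖ ^ 4 ∂(γn ι) ≤ C * B :=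
    fun P hP => hM P hP ι S ell et l cost e hG het het1 hBg ze (x 2) (hx 2)
  have hph : ∀ P ∈ Q, Integrable (fun y : ι → ℝ => ∫ s in uIoc 0 (x 2), ‖va S et P e 0 y s‖ ^ 4) (γn ι) ∧
      ∫ y : ι → ℝ, (∫ s in uIoc 0 (x 2), ‖va S et P e 0 y s‖ ^ 4) ∂(γn ι) ≤ l * C := by
    intro P hP
    refine fub S et P e (x 2) l C (hx 2) hC fun s hs => ?_
    have := hM P hP ι S ell et l cost e hG het het1 hBg 0 s hs
    simpa using this
  have ia : ∀ f g : (ι → ℝ) → ℝ, Integrable f (γn ι) → Integrable g (γn ι) →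
      ∫ y, (f y + g y) ∂(γn ι) = ∫ y, f y ∂(γn ι) + ∫ y, g y ∂(γn ι) :=
    fun f g hf hg => integral_add hf hg
  -- the majorant
  set R : (ι → ℝ) → ℝ := fun y => 2 * g2 * K *
      (ce * (∑ v ∈ eps.vars, ((∫ s in uIoc 0 (x 2), ‖va S et (MvPolynomial.pderiv v eps) e 0 y s‖ ^ 4) / 2
          + l * (‖va S et u e ze y (x 2)‖ ^ 4 + ‖va S et f e ze y (x 2)‖ ^ 4))) +
        cu * ∑ v ∈ u.vars, (1 + ‖va S et (MvPolynomial.pderiv v u) e ze y (x 2)‖ ^ 4) +
        cf * ∑ v ∈ f.vars, (1 + ‖va S et (MvPolynomial.pderiv v f) e ze y (x 2)‖ ^ 4)) with hR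
  have hle : ∀ y, ∑ i, S.w i * nsq (dY2 i (fun y => S.tri et eps u f (sc bp l)
      fun i => y i + e i) y x) ≤ R y := by
    intro y
    refine (hflp y).trans ?_
    rw [hc, one_mul, hR]
    refine mul_le_mul_of_nonneg_left ?_ (by positivity)
    have hsq : ∀ a : ℝ, a ^ 2 ≤ 1 + a ^ 4 := fun a => by nlinarith [sq_nonneg (a ^ 2 - 1), sq_nonneg (a ^ 2)]
    refine add_le_add (add_le_add ?_ ?_) ?_
    · rw [mul_assoc]
      refine mul_le_mul_of_nonneg_left ?_ hce0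
      rw [Finset.sum_mul]
      refine Finset.sum_le_sum fun v _ => ?_
      refine (phs S et _ e (x 2) _ y (by positivity)).trans ?_
      have h5 := hx 2
      have h6 : (‖va S et u e ze y (x 2)‖ ^ 2 + ‖va S et f e ze y (x 2)‖ ^ 2) ^ 2 ≤
          2 * (‖va S et u e ze y (x 2)‖ ^ 4 + ‖va S et f e ze y (x 2)‖ ^ 4) := by
        nlinarith [sq_nonneg (‖va S et u e ze y (x 2)‖ ^ 2 - ‖va S et f e ze y (x 2)‖ ^ 2)]
      have h7 : |x 2| * (‖va S et u e ze y (x 2)‖ ^ 2 + ‖va S et f e ze y (x 2)‖ ^ 2) ^ 2 ≤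
          l * (2 * (‖va S et u e ze y (x 2)‖ ^ 4 + ‖va S et f e ze y (x 2)‖ ^ 4)) :=
        mul_le_mul h5 h6 (sq_nonneg _) hl0.le
      linarith
    · exact mul_le_mul_of_nonneg_left (Finset.sum_le_sum fun v _ => hsq _) hcu0
    · exact mul_le_mul_of_nonneg_left (Finset.sum_le_sum fun v _ => hsq _) hcf0
  -- integrability of the three parts
  have iA : ∀ v ∈ eps.vars, Integrable (fun y : ι → ℝ =>
      ((∫ s in uIoc 0 (x 2), ‖va S et (MvPolynomial.pderiv v eps) e 0 y s‖ ^ 4) / 2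
          + l * (‖va S et u e ze y (x 2)‖ ^ 4 + ‖va S et f e ze y (x 2)‖ ^ 4))) (γn ι) :=
    fun v hv => ((hph _ (hQe v hv)).1.div_const 2).add
      (((hmom u hQu).1.add (hmom f hQf).1).const_mul l)
  have iU : ∀ v ∈ u.vars, Integrable (fun y : ι → ℝ =>
      (1 + ‖va S et (MvPolynomial.pderiv v u) e ze y (x 2)‖ ^ 4)) (γn ι) :=
    fun v hv => (integrable_const _).add (hmom _ (hQdu v hv)).1
  have iF : ∀ v ∈ f.vars, Integrable (fun y : ι → ℝ =>
      (1 + ‖va S et (MvPolynomial.pderiv v f) e ze y (x 2)‖ ^ 4)) (γn ι) :=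
    fun v hv => (integrable_const _).add (hmom _ (hQdf v hv)).1
  have jA : Integrable (fun y : ι → ℝ => ce * ∑ v ∈ eps.vars,
      ((∫ s in uIoc 0 (x 2), ‖va S et (MvPolynomial.pderiv v eps) e 0 y s‖ ^ 4) / 2
          + l * (‖va S et u e ze y (x 2)‖ ^ 4 + ‖va S et f e ze y (x 2)‖ ^ 4))) (γn ι) :=
    (integrable_finsetSum _ iA).const_mul _
  have jU : Integrable (fun y : ι → ℝ => cu * ∑ v ∈ u.vars,
      (1 + ‖va S et (MvPolynomial.pderiv v u) e ze y (x 2)‖ ^ 4)) (γn ι) :=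
    (integrable_finsetSum _ iU).const_mul _
  have jF : Integrable (fun y : ι → ℝ => cf * ∑ v ∈ f.vars,
      (1 + ‖va S et (MvPolynomial.pderiv v f) e ze y (x 2)‖ ^ 4)) (γn ι) :=
    (integrable_finsetSum _ iF).const_mul _
  have hRint : Integrable R (γn ι) := ((jA.add jU).add jF).const_mul _
  have eA : ∫ y : ι → ℝ, ce * ∑ v ∈ eps.vars,
      ((∫ s in uIoc 0 (x 2), ‖va S et (MvPolynomial.pderiv v eps) e 0 y s‖ ^ 4) / 2
          + l * (‖va S et u e ze y (x 2)‖ ^ 4 + ‖va S et f e ze y (x 2)‖ ^ 4)) ∂(γn ι) ≤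
      ce * (ce * (l * C / 2 + l * (2 * (C * B)))) := by
    rw [integral_const_mul]
    refine mul_le_mul_of_nonneg_left ?_ hce0
    rw [integral_finsetSum _ iA, hce, ← nsmul_eq_mul]
    refine Finset.sum_le_card_nsmul _ _ _ fun v hv => ?_
    have e1 : ∫ y : ι → ℝ, ((∫ s in uIoc 0 (x 2), ‖va S et (MvPolynomial.pderiv v eps) e 0 y s‖ ^ 4) / 2
          + l * (‖va S et u e ze y (x 2)‖ ^ 4 + ‖va S et f e ze y (x 2)‖ ^ 4)) ∂(γn ι) =
        (∫ y : ι → ℝ, (∫ s in uIoc 0 (x 2), ‖va S et (MvPolynomial.pderiv v eps) e 0 y s‖ ^ 4) ∂(γn ι)) / 2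
          + l * (∫ y : ι → ℝ, ‖va S et u e ze y (x 2)‖ ^ 4 ∂(γn ι) +
            ∫ y : ι → ℝ, ‖va S et f e ze y (x 2)‖ ^ 4 ∂(γn ι)) := by
      have ii : Integrable (fun y : ι → ℝ => l * (‖va S et u e ze y (x 2)‖ ^ 4 +
        ‖va S et f e ze y (x 2)‖ ^ 4)) (γn ι) :=
        ((hmom u hQu).1.add (hmom f hQf).1).const_mul l
      rw [ia _ _ ((hph _ (hQe v hv)).1.div_const 2) ii, integral_div, integral_const_mul,
        ia _ _ (hmom u hQu).1 (hmom f hQf).1]
    rw [e1]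
    have a1 := (hph _ (hQe v hv)).2
    have a2 := (hmom u hQu).2
    have a3 := (hmom f hQf).2
    have a4 : l * (∫ y : ι → ℝ, ‖va S et u e ze y (x 2)‖ ^ 4 ∂(γn ι) +
            ∫ y : ι → ℝ, ‖va S et f e ze y (x 2)‖ ^ 4 ∂(γn ι)) ≤ l * (2 * (C * B)) :=
      mul_le_mul_of_nonneg_left (by linarith) hl0.le
    linarith
  have eV : ∀ w : RR, (∀ v ∈ w.vars, MvPolynomial.pderiv v w ∈ Q) →
      ∫ y : ι → ℝ, (w.vars.card : ℝ) * ∑ v ∈ w.vars,
      (1 + ‖va S et (MvPolynomial.pderiv v w) e ze y (x 2)‖ ^ 4) ∂(γn ι) ≤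
      (w.vars.card : ℝ) * ((w.vars.card : ℝ) * (1 + C * B)) := by
    intro w hw
    rw [integral_const_mul]
    refine mul_le_mul_of_nonneg_left ?_ (Nat.cast_nonneg _)
    have hiw : ∀ v ∈ w.vars, Integrable (fun y : ι → ℝ =>
        (1 + ‖va S et (MvPolynomial.pderiv v w) e ze y (x 2)‖ ^ 4)) (γn ι) :=
      fun v hv => (integrable_const _).add (hmom _ (hw v hv)).1
    rw [integral_finsetSum _ hiw, ← nsmul_eq_mul]
    refine Finset.sum_le_card_nsmul _ _ _ fun v hv => ?_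
    have e1 : ∫ y : ι → ℝ, (1 + ‖va S et (MvPolynomial.pderiv v w) e ze y (x 2)‖ ^ 4) ∂(γn ι) =
        1 + ∫ y : ι → ℝ, ‖va S et (MvPolynomial.pderiv v w) e ze y (x 2)‖ ^ 4 ∂(γn ι) := by
      rw [ia _ _ (integrable_const _) (hmom _ (hw v hv)).1]
      simp
    rw [e1]
    have := (hmom _ (hw v hv)).2
    linarith
  have eU := eV u hQdu
  have eF := eV f hQdf
  rw [← hcu] at eU
  rw [← hcf] at eF
  have hRle : ∫ y, R y ∂(γn ι) ≤ 2 * g2 * K * (ce * (ce * (l * C / 2 + l * (2 * (C * B)))) +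
      cu * (cu * (1 + C * B)) + cf * (cf * (1 + C * B))) := by
    have e1 : ∫ y, R y ∂(γn ι) = 2 * g2 * K * ((∫ y : ι → ℝ, ce * ∑ v ∈ eps.vars,
      ((∫ s in uIoc 0 (x 2), ‖va S et (MvPolynomial.pderiv v eps) e 0 y s‖ ^ 4) / 2
          + l * (‖va S et u e ze y (x 2)‖ ^ 4 + ‖va S et f e ze y (x 2)‖ ^ 4)) ∂(γn ι)) +
      (∫ y : ι → ℝ, cu * ∑ v ∈ u.vars,
      (1 + ‖va S et (MvPolynomial.pderiv v u) e ze y (x 2)‖ ^ 4) ∂(γn ι)) +
      ∫ y : ι → ℝ, cf * ∑ v ∈ f.vars,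
      (1 + ‖va S et (MvPolynomial.pderiv v f) e ze y (x 2)‖ ^ 4) ∂(γn ι)) := by
      have jAU : Integrable (fun y : ι → ℝ => ce * ∑ v ∈ eps.vars,
      ((∫ s in uIoc 0 (x 2), ‖va S et (MvPolynomial.pderiv v eps) e 0 y s‖ ^ 4) / 2
          + l * (‖va S et u e ze y (x 2)‖ ^ 4 + ‖va S et f e ze y (x 2)‖ ^ 4)) +
        cu * ∑ v ∈ u.vars,
      (1 + ‖va S et (MvPolynomial.pderiv v u) e ze y (x 2)‖ ^ 4)) (γn ι) := jA.add jU
      rw [← ia _ _ jA jU, ← ia _ _ jAU jF, ← integral_const_mul]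
    rw [e1]
    refine mul_le_mul_of_nonneg_left ?_ (by positivity)
    linarith
  have hmono : ∫ y, ∑ i, S.w i * nsq (dY2 i (fun y => S.tri et eps u f (sc bp l)
      fun i => y i + e i) y x) ∂(γn ι) ≤ ∫ y, R y ∂(γn ι) :=
    integral_mono_of_nonneg (Filter.Eventually.of_forall hnn) hRint
      (Filter.Eventually.of_forall hle)
  refine hmono.trans (hRle.trans ?_)
  rw [hc, one_mul]
  have k1 : l * C / 2 + l * (2 * (C * B)) ≤ 5 / 2 * C * (l * B) := by
    have : l * C ≤ l * C * B := le_mul_of_one_le_right (by positivity) hB1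
    nlinarith
  have k2 : 1 + C * B ≤ (1 + C) * (l * B) := by
    have t1 : B ≤ l * B := le_mul_of_one_le_left (by linarith) hl
    have t2 : C * B ≤ C * (l * B) := mul_le_mul_of_nonneg_left t1 hC
    nlinarith
  have k3 : ce * (ce * (l * C / 2 + l * (2 * (C * B)))) + cu * (cu * (1 + C * B)) +
      cf * (cf * (1 + C * B)) ≤
      (ce ^ 2 * (5 / 2 * C) + (cu ^ 2 + cf ^ 2) * (1 + C)) * (l * B) := by
    have t1 : ce ^ 2 * (l * C / 2 + l * (2 * (C * B))) ≤ ce ^ 2 * (5 / 2 * C * (l * B)) :=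
      mul_le_mul_of_nonneg_left k1 (sq_nonneg _)
    have t2 : cu ^ 2 * (1 + C * B) ≤ cu ^ 2 * ((1 + C) * (l * B)) :=
      mul_le_mul_of_nonneg_left k2 (sq_nonneg _)
    have t3 : cf ^ 2 * (1 + C * B) ≤ cf ^ 2 * ((1 + C) * (l * B)) :=
      mul_le_mul_of_nonneg_left k2 (sq_nonneg _)
    nlinarith
  calc 2 * g2 * K * (ce * (ce * (l * C / 2 + l * (2 * (C * B)))) +
      cu * (cu * (1 + C * B)) + cf * (cf * (1 + C * B))) ≤
      2 * g2 * K * ((ce ^ 2 * (5 / 2 * C) + (cu ^ 2 + cf ^ 2) * (1 + C)) * (l * B)) :=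
        mul_le_mul_of_nonneg_left k3 (by positivity)
    _ = _ := by ring

end Pool.Agent.FTU.H30F

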